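import Pool.Agent.Work.MP_f21b3e_ml.All

/-!
# Conjugate geodesic flows: the homeomorphism of the manifolds is isotopic to the leaf maps

`X`, `Y` are the universal covers of closed negatively curved manifolds `M = X/Γ`, `N = Y/Γ`,
`f : X → Y` is an equivariant homeomorphism, `F` an equivariant conjugacy of the geodesic flows.  A
weak stable leaf is the set of the lines asymptotic to a line `c`; it is identified with `X` by the
foot point, so `F` gives the leaf map `L c : X → Y`.  All leaf maps are homeomorphisms and they are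
joined to `f` by an equivariant isotopy over the unit tangent bundle (the Alexander trick in
geodesic polar coordinates of `Y` centred at `f(c(0))`).
-/

set_option autoImplicit false

namespace Pool.Agent.Results.MP_f21b3e_gt.LeafMapIsotopy

open Pool.Agent.MLS Set

theorem result (X Y : Type) [MetricSpace X] [MetricSpace Y] (hX : IsHadamard X)
    (hY : IsHadamard Y) (Γ : Type) [Group Γ] [MulAction Γ X] [MulAction Γ Y]
    [IsIsometricSMul Γ X] [IsIsometricSMul Γ Y]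
    (hco : ∃ K : Set X, IsCompact K ∧ ∀ x : X, ∃ γ : Γ, γ • x ∈ K) (f : X ≃ₜ Y)
    (hf : ∀ (γ : Γ) (x : X), f (γ • x) = γ • f x) (F : Lines X ≃ₜ Lines Y)
    (hF : Conjugacy Γ F) :
    (∀ (c : Lines X) (x : X), ∃! d : Lines X, Asy c d ∧ d.1 0 = x) ∧
    (∀ c d : Lines X, Asy c d ↔ Asy (F c) (F d)) ∧
    ∃ (L : Lines X → X → Y) (H : Lines X × ℝ × X → Y) (G : Lines X × ℝ × Y → X) (C : ℝ),
      LeafMaps F L ∧ (∀ c d x, Asy c d → L c x = L d x) ∧
      ContinuousOn H {q | q.2.1 ∈ Icc 0 1} ∧ ContinuousOn G {q | q.2.1 ∈ Icc 0 1} ∧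
      (∀ c, ∀ t ∈ Icc (0 : ℝ) 1, ∀ z, G (c, t, H (c, t, z)) = z) ∧
      (∀ c, ∀ t ∈ Icc (0 : ℝ) 1, ∀ y, H (c, t, G (c, t, y)) = y) ∧
      (∀ c z, H (c, 0, z) = f z) ∧ (∀ c z, H (c, 1, z) = L c z) ∧
      (∀ (γ : Γ) (c : Lines X), ∀ t ∈ Icc (0 : ℝ) 1, ∀ z,
        H (mv γ c, t, γ • z) = γ • H (c, t, z)) ∧
      ∀ c, ∀ t ∈ Icc (0 : ℝ) 1, ∀ z, dist (H (c, t, z)) (f z) ≤ t * C :=
  stmt_MAIN X Y hX hY Γ hco f hf F hF

end Pool.Agent.Results.MP_f21b3e_gt.LeafMapIsotopy
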