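import Pool.Agent.Work.MP_f21b3e_ml.All

/-!
# The marked length spectrum determines the smooth structure under strict quarter pinching

Relative to five published theorems (`FarrellJones`, `ConjugacyTheorem`, `HopfTheorem`,
`KirbySiebenmann`, `KervaireMilnor`): closed strictly quarter pinched negatively curved manifolds
`M = X/Γ`, `N = Y/Γ` of dimension `n ≥ 5` with the same marked length spectrum are diffeomorphic if
`n` is odd or `n = 6, 12, 56`, and for every `n` they are diffeomorphic after a point has been
removed from each.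
-/

set_option autoImplicit false

namespace Pool.Agent.Results.MP_f21b3e_gt.PinchedRelPublished

open Pool.Agent.MLS Set

theorem result (hFJ : FarrellJones) (hCT : ConjugacyTheorem) (hHopf : HopfTheorem)
    (hKS : KirbySiebenmann) (hKM : KervaireMilnor) (E Γ : Type) [NormedAddCommGroup E]
    [NormedSpace ℝ E] [Group Γ] (hn : 5 ≤ Module.finrank ℝ E) (M N : NegManifold E Γ)
    (hM : QuarterPinched M) (hN : QuarterPinched N) (h : SameSpectrum M N) :
    (Odd (Module.finrank ℝ E) ∨ Module.finrank ℝ E = 6 ∨ Module.finrank ℝ E = 12 ∨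
      Module.finrank ℝ E = 56 → ∃ (Φ : M.X → N.X) (Ψ : N.X → M.X),
      IsEquivDiffeo E Γ univ univ Φ Ψ) ∧
      ∀ x₀ : M.X, ∃ (y₀ : N.X) (Φ : M.X → N.X) (Ψ : N.X → M.X),
        IsEquivDiffeo E Γ (offOrbit M x₀) (offOrbit N y₀) Φ Ψ :=
  relative_of stmt_MAIN hFJ hCT hHopf hKS hKM E Γ hn M N hM hN h

end Pool.Agent.Results.MP_f21b3e_gt.PinchedRelPublished
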