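import Pool.Agent.Work.MP_f21b3e_rl.Rigid

/-!
# Conjugate geodesic flows: a leaf map which is isometric or which descends

Setting of `LeafMapIsotopy`: `X`, `Y` are the universal covers of closed negatively curved manifolds
`M = X/Γ`, `N = Y/Γ`, `F` is an equivariant conjugacy of the geodesic flows and `L c : X → Y` its
leaf maps.  If one leaf map preserves distances, or if the leaf map of one line with a dense orbit
is equivariant, then it is an equivariant isometry: `M` and `N` are isometric.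
-/

set_option autoImplicit false

namespace Pool.Agent.Results.MP_f21b3e_gt.RigidLeafMaps

open Pool.Agent.MLS Set

theorem result (X Y : Type) [MetricSpace X] [MetricSpace Y] (hX : IsHadamard X)
    (hY : IsHadamard Y) (Γ : Type) [Group Γ] [MulAction Γ X] [MulAction Γ Y]
    [IsIsometricSMul Γ X] [IsIsometricSMul Γ Y]
    (hco : ∃ K : Set X, IsCompact K ∧ ∀ x : X, ∃ γ : Γ, γ • x ∈ K) (f : X ≃ₜ Y)
    (hf : ∀ (γ : Γ) (x : X), f (γ • x) = γ • f x) (F : Lines X ≃ₜ Lines Y)
    (hF : Conjugacy Γ F) (L : Lines X → X → Y) (hL : LeafMaps F L) :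
    (∀ c : Lines X, Function.Bijective (L c)) ∧
    (∀ c : Lines X, (∀ (d : Lines X) (x : X), L d x = L c x) →
      (∀ x y : X, dist (L c x) (L c y) = dist x y) ∧
      (∀ (γ : Γ) (x : X), L c (γ • x) = γ • L c x) ∧
      ∀ (d : Lines X) (t : ℝ), (F d).1 t = L c (d.1 t)) ∧
    (∀ c : Lines X, DenseOrbit Γ c → (∀ (γ : Γ) (x : X), L c (γ • x) = γ • L c x) →
      ∀ (d : Lines X) (x : X), L d x = L c x) ∧
    (NoStrips X → TwoLines X → ∀ c : Lines X, (∀ x y : X, dist (L c x) (L c y) = dist x y) →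
      (∀ (γ : Γ) (x : X), L c (γ • x) = γ • L c x) ∧
      ∀ d : Lines X, ∃ s : ℝ, ∀ t : ℝ, (F d).1 t = L c (d.1 (t + s))) :=
  rigid X Y hX hY Γ hco f hf F hF L hL

end Pool.Agent.Results.MP_f21b3e_gt.RigidLeafMaps
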